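import Mathlib

/-!
# Strongly regular graphs with `μ = 2` and matrices with two distinct eigenvalues
-/

set_option autoImplicit false

namespace Pool.Agent.Helper32.SQ

open Finset Matrix

variable {V : Type*} [Fintype V] [DecidableEq V]

/-- the symmetric real matrices whose off-diagonal zero pattern is described by `G` -/
def S (G : SimpleGraph V) : Set (Matrix V V ℝ) :=
  {A | A.IsSymm ∧ ∀ i j, i ≠ j → (A i j ≠ 0 ↔ G.Adj i j)}

/-- the least number of distinct eigenvalues of the matrices in `S G` -/
noncomputable def q (G : SimpleGraph V) : ℕ :=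
  sInf {k | ∃ A ∈ S G, k = (spectrum ℝ A).ncard}

lemma quad_of_spec (A : Matrix V V ℝ) (hA : A.IsSymm) (h : (spectrum ℝ A).ncard ≤ 2)
    (hne : Nonempty V) :
    ∃ α β : ℝ, A * A = α • A + β • (1 : Matrix V V ℝ) := by
  have hH : A.IsHermitian := by simpa [Matrix.IsHermitian] using hA.eq
  rw [hH.spectrum_real_eq_range_eigenvalues] at h
  have hf : (Set.range hH.eigenvalues).Finite := Set.finite_range _
  obtain ⟨a, b, hab⟩ : ∃ a b : ℝ, ∀ i, hH.eigenvalues i = a ∨ hH.eigenvalues i = b := by
    obtain ⟨i0⟩ := hne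
    by_cases hc : ∀ i, hH.eigenvalues i = hH.eigenvalues i0
    · exact ⟨hH.eigenvalues i0, hH.eigenvalues i0, fun i => Or.inr (hc i)⟩
    · push Not at hc
      obtain ⟨i1, hi1⟩ := hc
      refine ⟨hH.eigenvalues i0, hH.eigenvalues i1, fun i => ?_⟩
      by_contra hcon
      push Not at hcon
      have : ({hH.eigenvalues i0, hH.eigenvalues i1, hH.eigenvalues i} : Set ℝ).ncard ≤
          (Set.range hH.eigenvalues).ncard := by
        refine Set.ncard_le_ncard ?_ hf
        rintro x (rfl | rfl | rfl) <;> exact ⟨_, rfl⟩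
      rw [Set.ncard_eq_three.2 ⟨_, _, _, Ne.symm hi1, Ne.symm hcon.1, Ne.symm hcon.2, rfl⟩] at this
      omega
  refine ⟨a + b, -(a * b), ?_⟩
  set U := (hH.eigenvectorUnitary : Matrix V V ℝ) with hU
  set D : Matrix V V ℝ := Matrix.diagonal hH.eigenvalues with hD
  have hs : A = U * D * star U := by
    have := hH.spectral_theorem
    rw [Unitary.conjStarAlgAut_apply] at this
    exact this
  have hUU : star U * U = 1 := Unitary.coe_star_mul_self hH.eigenvectorUnitary
  have hUU' : U * star U = 1 := Unitary.coe_mul_star_self hH.eigenvectorUnitary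
  have hDD : D * D = (a + b) • D + (-(a * b)) • (1 : Matrix V V ℝ) := by
    rw [hD, Matrix.diagonal_mul_diagonal]
    ext i j
    by_cases e : i = j
    · subst e
      simp only [Matrix.diagonal_apply_eq, Matrix.add_apply, Matrix.smul_apply, smul_eq_mul,
        Matrix.one_apply_eq, mul_one]
      rcases hab i with h | h <;> rw [h] <;> ring
    · simp [e]
  calc A * A = U * D * (star U * U) * D * star U := by
        conv_lhs => rw [hs]
        simp only [Matrix.mul_assoc]
    _ = U * (D * D) * star U := by rw [hUU]; simp only [Matrix.mul_assoc, Matrix.mul_one]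
    _ = (a + b) • (U * D * star U) + (-(a * b)) • (U * star U) := by
        rw [hDD]
        simp only [Matrix.mul_add, Matrix.add_mul, Matrix.mul_smul, Matrix.smul_mul, Matrix.mul_one]
    _ = (a + b) • A + (-(a * b)) • (1 : Matrix V V ℝ) := by rw [← hs, hUU']

/-- a product of two matrices supported on the edges, at two vertices -/
lemma mul_eq_sum {R : Type*} [CommRing R] (G : SimpleGraph V) [DecidableRel G.Adj]
    (X Y : Matrix V V R) {u v : V}
    (hX : ∀ w, ¬ G.Adj u w → X u w * Y w v = 0) (hY : ∀ w, ¬ G.Adj w v → X u w * Y w v = 0) :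
    (X * Y) u v = ∑ w ∈ univ.filter (fun w => G.Adj u w ∧ G.Adj w v), X u w * Y w v := by
  rw [Matrix.mul_apply, Finset.sum_filter]
  refine Finset.sum_congr rfl fun w _ => ?_
  split_ifs with h
  · rfl
  · rw [not_and_or] at h
    rcases h with h | h
    · exact hX w h
    · exact hY w h

lemma common_filter (G : SimpleGraph V) [DecidableRel G.Adj] (u v : V) :
    (univ.filter (fun w => G.Adj u w ∧ G.Adj w v)).card =
      Fintype.card (G.commonNeighbors u v) := by
  rw [Fintype.card_subtype]
  congr 1
  ext w
  simp [SimpleGraph.mem_commonNeighbors, SimpleGraph.adj_comm]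

/-- trace of a real idempotent matrix -/
lemma trace_idem (P : Matrix V V ℝ) (h : P * P = P) : ∃ r : ℕ, P.trace = r := by
  have he : IsIdempotentElem (Matrix.toLin' P) := by
    unfold IsIdempotentElem
    rw [Module.End.mul_eq_comp, ← Matrix.toLin'_mul, h]
  have ht := (LinearMap.IsIdempotentElem.isProj_range _ he).trace
  rw [Matrix.trace_toLin'_eq] at ht
  exact ⟨_, ht⟩

end Pool.Agent.Helper32.SQ
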