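import Pool.Agent.Helper32.SQ.Three

/-!
# The Shrikhande graph and the Gewirtz graph

In both graphs there is an odd number of quadrangles (pairs of nonadjacent vertices with their two common
neighbours) which together contain every edge an even number of times.
-/

set_option autoImplicit false
set_option maxRecDepth 100000

namespace Pool.Agent.Helper32.SQ

open Finset Matrix

lemma quad_neg {V : Type*} [Fintype V] [DecidableEq V] {G : SimpleGraph V} [DecidableRel G.Adj]
    {A : Matrix V V ℝ} {n k l : ℕ} (h : G.IsSRGWith n k l 2) {α β : ℝ} (hA : A ∈ S G)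
    (hq : A * A = α • A + β • (1 : Matrix V V ℝ)) {u v w1 w2 : V} (huv : u ≠ v)
    (hn : ¬ G.Adj u v) (hw : w1 ≠ w2) (h1 : G.Adj u w1) (h2 : G.Adj w1 v) (h3 : G.Adj u w2)
    (h4 : G.Adj w2 v) : A u w1 * A w1 v * A u w2 * A w2 v < 0 := by
  have hf : univ.filter (fun w => G.Adj u w ∧ G.Adj w v) = {w1, w2} := by
    symm
    refine Finset.eq_of_subset_of_card_le ?_ ?_
    · intro x hx
      rw [Finset.mem_insert, Finset.mem_singleton] at hx
      rw [Finset.mem_filter]
      refine ⟨Finset.mem_univ _, ?_⟩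
      rcases hx with rfl | rfl
      · exact ⟨h1, h2⟩
      · exact ⟨h3, h4⟩
    · rw [com_not h huv hn, Finset.card_pair hw]
  have e := real_pair hA hq huv hn hw hf
  have n1 : A u w1 ≠ 0 := (hA.2 _ _ h1.ne).2 h1
  have n2 : A w1 v ≠ 0 := (hA.2 _ _ h2.ne).2 h2
  have e1 : A u w1 * A w1 v * A u w2 * A w2 v = -(A u w1 * A w1 v) ^ 2 := by
    linear_combination (A u w1 * A w1 v) * e
  rw [e1]
  have : 0 < (A u w1 * A w1 v) ^ 2 := by positivity
  linarith

/-- the graph on `Fin N` with the rows `r` of the adjacency matrix, as binary numbers -/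
def ofRows (N : ℕ) (r : List ℕ) (hs : ∀ x y : Fin N, (r.getD x 0).testBit y = (r.getD y 0).testBit x)
    (hl : ∀ x : Fin N, (r.getD x 0).testBit x = false) : SimpleGraph (Fin N) where
  Adj x y := (r.getD x 0).testBit y = true
  symm := ⟨fun x y h => by rw [← hs x y]; exact h⟩
  loopless := ⟨fun x h => by rw [hl x] at h; exact absurd h (by simp)⟩

/-- the rows of the adjacency matrix of the Shrikhande graph -/
def shrRows : List ℕ := [36922, 12389, 24778, 49301, 937, 1619, 3238, 2396, 14992, 25904, 51808, 38336, 43267, 21254, 42508, 23561]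

/-- the Shrikhande graph: the Cayley graph of `(ℤ/4)²` with the connection set `±(1,0), ±(0,1), ±(1,1)`,
the vertex `(a, b)` is numbered `4 a + b` -/
def shrikhande : SimpleGraph (Fin 16) where
  Adj x y := ((x.1 / 4 + 4 - y.1 / 4) % 4, (x.1 % 4 + 4 - y.1 % 4) % 4) ∈
    [((1 : ℕ), (0 : ℕ)), (3, 0), (0, 1), (0, 3), (1, 1), (3, 3)]
  symm := ⟨by decide⟩
  loopless := ⟨by decide⟩

instance : DecidableRel shrikhande.Adj := fun x y =>
  inferInstanceAs (Decidable (((x.1 / 4 + 4 - y.1 / 4) % 4, (x.1 % 4 + 4 - y.1 % 4) % 4) ∈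
    [((1 : ℕ), (0 : ℕ)), (3, 0), (0, 1), (0, 3), (1, 1), (3, 3)]))

lemma shr_srg : shrikhande.IsSRGWith 16 6 2 2 where
  card := by simp
  regular := by unfold SimpleGraph.IsRegularOfDegree; decide +kernel
  of_adj := by decide +kernel
  of_not_adj := by unfold Pairwise; decide +kernel

lemma shr_no {α β : ℝ} {A : Matrix (Fin 16) (Fin 16) ℝ} (hA : A ∈ S shrikhande)
    (hq : A * A = α • A + β • (1 : Matrix (Fin 16) (Fin 16) ℝ)) : False := by
  have h := shr_srg
  have hs : ∀ x y, A x y = A y x := fun x y => by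
    have := congrFun (congrFun hA.1 y) x
    simpa using this
  have q1 := quad_neg h hA hq (u := 3) (v := 9) (w1 := 4) (w2 := 14) (by decide) (by decide)
    (by decide) (by decide) (by decide) (by decide) (by decide)
  rw [hs 14 9] at q1
  have q2 := quad_neg h hA hq (u := 3) (v := 10) (w1 := 14) (w2 := 15) (by decide) (by decide)
    (by decide) (by decide) (by decide) (by decide) (by decide)
  rw [hs 14 10, hs 15 10] at q2
  have q3 := quad_neg h hA hq (u := 7) (v := 15) (w1 := 3) (w2 := 11) (by decide) (by decide)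
    (by decide) (by decide) (by decide) (by decide) (by decide)
  rw [hs 7 3] at q3
  have q4 := quad_neg h hA hq (u := 11) (v := 14) (w1 := 10) (w2 := 15) (by decide) (by decide)
    (by decide) (by decide) (by decide) (by decide) (by decide)
  rw [hs 11 10, hs 15 14] at q4
  have q5 := quad_neg h hA hq (u := 9) (v := 11) (w1 := 8) (w2 := 10) (by decide) (by decide)
    (by decide) (by decide) (by decide) (by decide) (by decide)
  rw [hs 9 8] at q5
  have q6 := quad_neg h hA hq (u := 9) (v := 15) (w1 := 10) (w2 := 14) (by decide) (by decide)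
    (by decide) (by decide) (by decide) (by decide) (by decide)
  have q7 := quad_neg h hA hq (u := 3) (v := 8) (w1 := 4) (w2 := 7) (by decide) (by decide)
    (by decide) (by decide) (by decide) (by decide) (by decide)
  have q8 := quad_neg h hA hq (u := 7) (v := 9) (w1 := 4) (w2 := 8) (by decide) (by decide)
    (by decide) (by decide) (by decide) (by decide) (by decide)
  rw [hs 7 4] at q8
  have q9 := quad_neg h hA hq (u := 4) (v := 11) (w1 := 7) (w2 := 8) (by decide) (by decide)
    (by decide) (by decide) (by decide) (by decide) (by decide)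
  have t1 := q1
  have t2 := mul_pos_of_neg_of_neg t1 q2
  have t3 := mul_neg_of_pos_of_neg t2 q3
  have t4 := mul_pos_of_neg_of_neg t3 q4
  have t5 := mul_neg_of_pos_of_neg t4 q5
  have t6 := mul_pos_of_neg_of_neg t5 q6
  have t7 := mul_neg_of_pos_of_neg t6 q7
  have t8 := mul_pos_of_neg_of_neg t7 q8
  have t9 := mul_neg_of_pos_of_neg t8 q9
  have hsq := sq_nonneg (A 3 4 * A 3 7 * A 3 14 * A 3 15 * A 4 7 * A 4 8 * A 4 9 * A 7 8 * A 7 11 * A 8 9 * A 8 11 * A 9 10 * A 9 14 * A 10 11 * A 10 14 * A 10 15 * A 11 15 * A 14 15)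
  have e : (A 3 4 * A 4 9 * A 3 14 * A 9 14) * (A 3 14 * A 10 14 * A 3 15 * A 10 15) * (A 3 7 * A 3 15 * A 7 11 * A 11 15) * (A 10 11 * A 10 14 * A 11 15 * A 14 15) * (A 8 9 * A 8 11 * A 9 10 * A 10 11) * (A 9 10 * A 10 15 * A 9 14 * A 14 15) * (A 3 4 * A 4 8 * A 3 7 * A 7 8) * (A 4 7 * A 4 9 * A 7 8 * A 8 9) * (A 4 7 * A 7 11 * A 4 8 * A 8 11) =
      (A 3 4 * A 3 7 * A 3 14 * A 3 15 * A 4 7 * A 4 8 * A 4 9 * A 7 8 * A 7 11 * A 8 9 * A 8 11 * A 9 10 * A 9 14 * A 10 11 * A 10 14 * A 10 15 * A 11 15 * A 14 15) ^ 2 := by ring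
  rw [e] at t9
  exact absurd t9 (not_lt.2 hsq)

/-- the blocks of the Steiner system `S(3,6,22)` which avoid one point, as binary numbers -/
def gewBlocks : List ℕ := [874, 917, 3173, 3226, 12377, 12454, 22208, 22832, 25868, 27139, 38147, 39436, 42544, 43456, 49238, 49321, 196668, 196803, 211968, 246528, 329225, 329990, 352400, 364640, 394656, 395856, 413706, 434181, 591184, 592544, 610309, 630794, 656902, 657673, 680032, 692368, 786483, 786636, 799488, 838656, 1118738, 1122593, 1132616, 1148036, 1184068, 1188488, 1197073, 1214498, 1316993, 1320002, 1327652, 1343768, 1578024, 1583124, 1589634, 1606209]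

/-- the Gewirtz graph: the 56 blocks, adjacent when disjoint -/
def gewirtz : SimpleGraph (Fin 56) where
  Adj x y := x ≠ y ∧ gewBlocks.getD x 0 &&& gewBlocks.getD y 0 = 0
  symm := ⟨fun x y h => ⟨h.1.symm, by rw [Nat.land_comm]; exact h.2⟩⟩
  loopless := ⟨fun x h => h.1 rfl⟩

instance : DecidableRel gewirtz.Adj := fun x y =>
  inferInstanceAs (Decidable (x ≠ y ∧ gewBlocks.getD x 0 &&& gewBlocks.getD y 0 = 0))

lemma gew_srg : gewirtz.IsSRGWith 56 10 0 2 where
  card := by simp
  regular := by unfold SimpleGraph.IsRegularOfDegree; decide +kernel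
  of_adj := by decide +kernel
  of_not_adj := by unfold Pairwise; decide +kernel

lemma gew_no {α β : ℝ} {A : Matrix (Fin 56) (Fin 56) ℝ} (hA : A ∈ S gewirtz)
    (hq : A * A = α • A + β • (1 : Matrix (Fin 56) (Fin 56) ℝ)) : False := by
  have h := gew_srg
  have hs : ∀ x y, A x y = A y x := fun x y => by
    have := congrFun (congrFun hA.1 y) x
    simpa using this
  have q1 := quad_neg h hA hq (u := 11) (v := 19) (w1 := 36) (w2 := 49) (by decide +kernel) (by decide +kernel)
    (by decide +kernel) (by decide +kernel) (by decide +kernel) (by decide +kernel) (by decide +kernel)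
  rw [hs 36 19, hs 49 19] at q1
  have q2 := quad_neg h hA hq (u := 42) (v := 43) (w1 := 36) (w2 := 38) (by decide +kernel) (by decide +kernel)
    (by decide +kernel) (by decide +kernel) (by decide +kernel) (by decide +kernel) (by decide +kernel)
  rw [hs 42 36, hs 42 38] at q2
  have q3 := quad_neg h hA hq (u := 10) (v := 48) (w1 := 16) (w2 := 34) (by decide +kernel) (by decide +kernel)
    (by decide +kernel) (by decide +kernel) (by decide +kernel) (by decide +kernel) (by decide +kernel)
  have q4 := quad_neg h hA hq (u := 16) (v := 19) (w1 := 48) (w2 := 49) (by decide +kernel) (by decide +kernel)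
    (by decide +kernel) (by decide +kernel) (by decide +kernel) (by decide +kernel) (by decide +kernel)
  rw [hs 48 19, hs 49 19] at q4
  have q5 := quad_neg h hA hq (u := 11) (v := 48) (w1 := 28) (w2 := 34) (by decide +kernel) (by decide +kernel)
    (by decide +kernel) (by decide +kernel) (by decide +kernel) (by decide +kernel) (by decide +kernel)
  have q6 := quad_neg h hA hq (u := 15) (v := 16) (w1 := 38) (w2 := 49) (by decide +kernel) (by decide +kernel)
    (by decide +kernel) (by decide +kernel) (by decide +kernel) (by decide +kernel) (by decide +kernel)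
  rw [hs 38 16, hs 49 16] at q6
  have q7 := quad_neg h hA hq (u := 28) (v := 49) (w1 := 11) (w2 := 15) (by decide +kernel) (by decide +kernel)
    (by decide +kernel) (by decide +kernel) (by decide +kernel) (by decide +kernel) (by decide +kernel)
  rw [hs 28 11, hs 28 15] at q7
  have q8 := quad_neg h hA hq (u := 5) (v := 10) (w1 := 25) (w2 := 42) (by decide +kernel) (by decide +kernel)
    (by decide +kernel) (by decide +kernel) (by decide +kernel) (by decide +kernel) (by decide +kernel)
  rw [hs 25 10, hs 42 10] at q8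
  have q9 := quad_neg h hA hq (u := 19) (v := 42) (w1 := 5) (w2 := 36) (by decide +kernel) (by decide +kernel)
    (by decide +kernel) (by decide +kernel) (by decide +kernel) (by decide +kernel) (by decide +kernel)
  rw [hs 19 5] at q9
  have q10 := quad_neg h hA hq (u := 19) (v := 28) (w1 := 5) (w2 := 48) (by decide +kernel) (by decide +kernel)
    (by decide +kernel) (by decide +kernel) (by decide +kernel) (by decide +kernel) (by decide +kernel)
  rw [hs 19 5, hs 48 28] at q10
  have q11 := quad_neg h hA hq (u := 15) (v := 43) (w1 := 25) (w2 := 38) (by decide +kernel) (by decide +kernel)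
    (by decide +kernel) (by decide +kernel) (by decide +kernel) (by decide +kernel) (by decide +kernel)
  have q12 := quad_neg h hA hq (u := 16) (v := 42) (w1 := 10) (w2 := 38) (by decide +kernel) (by decide +kernel)
    (by decide +kernel) (by decide +kernel) (by decide +kernel) (by decide +kernel) (by decide +kernel)
  rw [hs 16 10] at q12
  have q13 := quad_neg h hA hq (u := 25) (v := 34) (w1 := 10) (w2 := 43) (by decide +kernel) (by decide +kernel)
    (by decide +kernel) (by decide +kernel) (by decide +kernel) (by decide +kernel) (by decide +kernel)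
  rw [hs 25 10, hs 43 34] at q13
  have q14 := quad_neg h hA hq (u := 11) (v := 43) (w1 := 34) (w2 := 36) (by decide +kernel) (by decide +kernel)
    (by decide +kernel) (by decide +kernel) (by decide +kernel) (by decide +kernel) (by decide +kernel)
  have q15 := quad_neg h hA hq (u := 5) (v := 15) (w1 := 25) (w2 := 28) (by decide +kernel) (by decide +kernel)
    (by decide +kernel) (by decide +kernel) (by decide +kernel) (by decide +kernel) (by decide +kernel)
  rw [hs 25 15, hs 28 15] at q15
  have t1 := q1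
  have t2 := mul_pos_of_neg_of_neg t1 q2
  have t3 := mul_neg_of_pos_of_neg t2 q3
  have t4 := mul_pos_of_neg_of_neg t3 q4
  have t5 := mul_neg_of_pos_of_neg t4 q5
  have t6 := mul_pos_of_neg_of_neg t5 q6
  have t7 := mul_neg_of_pos_of_neg t6 q7
  have t8 := mul_pos_of_neg_of_neg t7 q8
  have t9 := mul_neg_of_pos_of_neg t8 q9
  have t10 := mul_pos_of_neg_of_neg t9 q10
  have t11 := mul_neg_of_pos_of_neg t10 q11
  have t12 := mul_pos_of_neg_of_neg t11 q12
  have t13 := mul_neg_of_pos_of_neg t12 q13
  have t14 := mul_pos_of_neg_of_neg t13 q14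
  have t15 := mul_neg_of_pos_of_neg t14 q15
  have hsq := sq_nonneg (A 5 19 * A 5 25 * A 5 28 * A 5 42 * A 10 16 * A 10 25 * A 10 34 * A 10 42 * A 11 28 * A 11 34 * A 11 36 * A 11 49 * A 15 25 * A 15 28 * A 15 38 * A 15 49 * A 16 38 * A 16 48 * A 16 49 * A 19 36 * A 19 48 * A 19 49 * A 25 43 * A 28 48 * A 34 43 * A 34 48 * A 36 42 * A 36 43 * A 38 42 * A 38 43)
  have e : (A 11 36 * A 19 36 * A 11 49 * A 19 49) * (A 36 42 * A 36 43 * A 38 42 * A 38 43) * (A 10 16 * A 16 48 * A 10 34 * A 34 48) * (A 16 48 * A 19 48 * A 16 49 * A 19 49) * (A 11 28 * A 28 48 * A 11 34 * A 34 48) * (A 15 38 * A 16 38 * A 15 49 * A 16 49) * (A 11 28 * A 11 49 * A 15 28 * A 15 49) * (A 5 25 * A 10 25 * A 5 42 * A 10 42) * (A 5 19 * A 5 42 * A 19 36 * A 36 42) * (A 5 19 * A 5 28 * A 19 48 * A 28 48) * (A 15 25 * A 25 43 * A 15 38 * A 38 43) * (A 10 16 * A 10 42 * A 16 38 * A 38 42) * (A 10 25 * A 10 34 * A 25 43 * A 34 43) * (A 11 34 * A 34 43 * A 11 36 * A 36 43) * (A 5 25 * A 15 25 * A 5 28 * A 15 28) =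
      (A 5 19 * A 5 25 * A 5 28 * A 5 42 * A 10 16 * A 10 25 * A 10 34 * A 10 42 * A 11 28 * A 11 34 * A 11 36 * A 11 49 * A 15 25 * A 15 28 * A 15 38 * A 15 49 * A 16 38 * A 16 48 * A 16 49 * A 19 36 * A 19 48 * A 19 49 * A 25 43 * A 28 48 * A 34 43 * A 34 48 * A 36 42 * A 36 43 * A 38 42 * A 38 43) ^ 2 := by ring
  rw [e] at t15
  exact absurd t15 (not_lt.2 hsq)

lemma q_shrikhande : q shrikhande = 3 := q_eq shr_srg ⟨0⟩ fun _ hA _ _ e => shr_no hA e

lemma q_gewirtz : q gewirtz = 3 := q_eq gew_srg ⟨0⟩ fun _ hA _ _ e => gew_no hA e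

end Pool.Agent.Helper32.SQ
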