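import Pool.Agent.Helper32.SQ.Core

/-!
# `λ = 1`, `μ = 2`: a matrix with two eigenvalues gives a signing of `G` whose square `k + M` contains a
second signing `M` with `M ^ 2 = M + k`; the traces show that `4 k + 1` is a square.
-/

set_option autoImplicit false

namespace Pool.Agent.Helper32.SQ

open Finset Matrix

variable {V : Type*} [Fintype V] [DecidableEq V]

/-- the sign matrix -/
noncomputable def sg (G : SimpleGraph V) [DecidableRel G.Adj] (A : Matrix V V ℝ) : Matrix V V ℤ :=
  fun u v => if G.Adj u v then (if 0 < A u v then 1 else -1) else 0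

section
variable {G : SimpleGraph V} [DecidableRel G.Adj] {A : Matrix V V ℝ}

lemma sg_zero {u v : V} (h : ¬ G.Adj u v) : sg G A u v = 0 := if_neg h

lemma sg_one {u v : V} (h : G.Adj u v) : sg G A u v = 1 ∨ sg G A u v = -1 := by
  unfold sg
  rw [if_pos h]
  split_ifs <;> simp

lemma sg_sq {u v : V} (h : G.Adj u v) : sg G A u v * sg G A u v = 1 := by
  rcases sg_one (A := A) h with e | e <;> rw [e] <;> norm_num

lemma sg_symm (hA : A ∈ S G) (u v : V) : sg G A u v = sg G A v u := by
  unfold sg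
  have : A u v = A v u := by
    have := congrFun (congrFun hA.1 v) u
    simpa using this
  rw [this]
  simp only [G.adj_comm u v]

lemma sg_pos (hA : A ∈ S G) {u v : V} (h : G.Adj u v) : 0 < (sg G A u v : ℝ) * A u v := by
  have h0 : A u v ≠ 0 := (hA.2 u v h.ne).2 h
  unfold sg
  rw [if_pos h]
  split_ifs with h1
  · simpa using h1
  · have : A u v < 0 := lt_of_le_of_ne (not_lt.1 h1) h0
    push_cast
    linarith

lemma real_pair {α β : ℝ} (hA : A ∈ S G) (hq : A * A = α • A + β • (1 : Matrix V V ℝ))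
    {u v w1 w2 : V} (huv : u ≠ v) (hn : ¬ G.Adj u v) (hw : w1 ≠ w2)
    (hf : univ.filter (fun w => G.Adj u w ∧ G.Adj w v) = {w1, w2}) :
    A u w1 * A w1 v + A u w2 * A w2 v = 0 := by
  have h0 : A u v = 0 := by
    by_contra h
    exact hn ((hA.2 u v huv).1 h)
  have h1 : (A * A) u v = 0 := by
    rw [hq]
    simp [h0, huv]
  rw [mul_eq_sum G A A (u := u) (v := v), hf, Finset.sum_pair hw] at h1
  · exact h1
  · intro w hw'
    by_cases e : u = w
    · subst e
      rw [h0, mul_zero]
    · have : A u w = 0 := by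
        by_contra h
        exact hw' ((hA.2 u w e).1 h)
      rw [this, zero_mul]
  · intro w hw'
    by_cases e : w = v
    · subst e
      rw [h0, zero_mul]
    · have : A w v = 0 := by
        by_contra h
        exact hw' ((hA.2 w v e).1 h)
      rw [this, mul_zero]

lemma sg_pair {α β : ℝ} (hA : A ∈ S G) (hq : A * A = α • A + β • (1 : Matrix V V ℝ))
    {u v w1 w2 : V} (huv : u ≠ v) (hn : ¬ G.Adj u v) (hw : w1 ≠ w2)
    (hf : univ.filter (fun w => G.Adj u w ∧ G.Adj w v) = {w1, w2}) :
    sg G A u w1 * sg G A w1 v + sg G A u w2 * sg G A w2 v = 0 := by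
  have h := real_pair hA hq huv hn hw hf
  have hm1 : w1 ∈ univ.filter (fun w => G.Adj u w ∧ G.Adj w v) := by rw [hf]; simp
  have hm2 : w2 ∈ univ.filter (fun w => G.Adj u w ∧ G.Adj w v) := by rw [hf]; simp
  simp only [Finset.mem_filter, Finset.mem_univ, true_and] at hm1 hm2
  have p1 := sg_pos hA hm1.1
  have p2 := sg_pos hA hm1.2
  have p3 := sg_pos hA hm2.1
  have p4 := sg_pos hA hm2.2
  have q1 := mul_pos p1 p2
  have q2 := mul_pos p3 p4
  rcases sg_one (A := A) hm1.1 with e1 | e1 <;> rcases sg_one (A := A) hm1.2 with e2 | e2 <;>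
    rcases sg_one (A := A) hm2.1 with e3 | e3 <;> rcases sg_one (A := A) hm2.2 with e4 | e4 <;>
    rw [e1, e2, e3, e4] <;> first
      | decide
      | (exfalso
         rw [e1, e2] at q1
         rw [e3, e4] at q2
         push_cast at q1 q2
         nlinarith [q1, q2, h])

end

/-- trace of a matrix with `X ^ 2 = c ^ 2 E` -/
lemma trace_int (X E : Matrix V V ℝ) (c : ℝ) (hc : 0 < c) (hE : E * E = E) (h1 : X * E = X)
    (h2 : E * X = X) (h3 : X * X = (c * c) • E) : ∃ z : ℤ, X.trace = c * z := by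
  obtain ⟨r', hr'⟩ := trace_idem E hE
  obtain ⟨r, hr⟩ := trace_idem ((1 / 2 : ℝ) • (E + (1 / c) • X)) (by
    simp only [Matrix.mul_smul, Matrix.smul_mul, Matrix.mul_add, Matrix.add_mul, hE, h1, h2, h3,
      smul_smul, smul_add]
    have e : (1 / 2 * (1 / 2) * (1 / c * (1 / c) * (c * c)) : ℝ) = 1 / 4 := by field_simp; norm_num
    ext i j
    simp only [Matrix.add_apply, Matrix.smul_apply, smul_eq_mul]
    field_simp
    ring)
  refine ⟨2 * r - r', ?_⟩
  rw [Matrix.trace_smul, Matrix.trace_add, Matrix.trace_smul, hr', smul_eq_mul, smul_eq_mul] at hr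
  push_cast
  field_simp at hr
  linarith

lemma signs_help (a b c d a' b' c' d' : ℤ) (ha : a = 1 ∨ a = -1) (hb : b = 1 ∨ b = -1)
    (hc : c = 1 ∨ c = -1) (hd : d = 1 ∨ d = -1) (ha' : a' = 1 ∨ a' = -1) (hb' : b' = 1 ∨ b' = -1)
    (hc' : c' = 1 ∨ c' = -1) (hd' : d' = 1 ∨ d' = -1) (h1 : a * b + c * d = 0)
    (h2 : a * b' + c * d' = a' * b + c' * d) : a' * b' + c' * d' = 0 := by
  rcases ha with rfl | rfl <;> rcases hb with rfl | rfl <;> rcases hc with rfl | rfl <;>
    rcases hd with rfl | rfl <;> rcases ha' with rfl | rfl <;> rcases hb' with rfl | rfl <;>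
    rcases hc' with rfl | rfl <;> rcases hd' with rfl | rfl <;> omega

/-- the number theory -/
lemma arith (n k : ℕ) (z1 z2 : ℤ) (hk : 3 ≤ k) (hn : 2 * n = k * k + 2)
    (h1 : (n : ℤ) * n = (4 * k + 1) * (z1 * z1))
    (h2 : ((n : ℤ) - (2 * k + 1)) * (n - (2 * k + 1)) = (4 * k - 7) * (z2 * z2)) : False := by
  have sq : ∀ (m a b : ℤ), b ≠ 0 → a * a = m * (b * b) → ∃ x : ℤ, x * x = m := by
    intro m a b hb h
    have : b ∣ a := by
      have : b ^ 2 ∣ a ^ 2 := ⟨m, by rw [sq, sq, h]; ring⟩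
      exact (Int.pow_dvd_pow_iff two_ne_zero).1 this
    obtain ⟨x, rfl⟩ := this
    refine ⟨x, ?_⟩
    have hbb : b * b ≠ 0 := mul_ne_zero hb hb
    have : (x * x) * (b * b) = m * (b * b) := by rw [← h]; ring
    exact mul_right_cancel₀ hbb this
  have hn0 : (0 : ℤ) < n := by
    have : 0 < n := by nlinarith
    exact_mod_cast this
  have hz1 : z1 ≠ 0 := by
    rintro rfl
    nlinarith
  obtain ⟨x, hx⟩ := sq _ _ _ hz1 h1
  have hk' : (3 : ℤ) ≤ k := by exact_mod_cast hk
  have hn' : 2 * (n : ℤ) = k * k + 2 := by exact_mod_cast hn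
  by_cases hc : (n : ℤ) = 2 * k + 1
  · have hk4 : (k : ℤ) = 4 := by
      rw [hc] at hn'
      have : (k : ℤ) * (k - 4) = 0 := by linarith
      rcases mul_eq_zero.1 this with h | h <;> omega
    rw [hk4] at hx
    have : |x| ≤ 5 := by
      by_contra hcon
      push Not at hcon
      have := abs_mul_abs_self x
      nlinarith
    have h5 := abs_le.1 this
    obtain ⟨l, u⟩ := h5
    interval_cases x <;> omega
  · have hz2 : z2 ≠ 0 := by
      rintro rfl
      have : ((n : ℤ) - (2 * k + 1)) = 0 := by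
        have : ((n : ℤ) - (2 * k + 1)) * (n - (2 * k + 1)) = 0 := by rw [h2]; ring
        exact mul_self_eq_zero.1 this
      exact hc (by linarith)
    obtain ⟨y, hy⟩ := sq _ _ _ hz2 h2
    have e : |x| * |x| = |y| * |y| + 8 := by
      rw [abs_mul_abs_self, abs_mul_abs_self, hx, hy]; ring
    have hxy : |y| < |x| := by
      by_contra hcon
      push Not at hcon
      have := abs_nonneg x
      nlinarith
    have hy3 : |y| ≤ 3 := by nlinarith [abs_nonneg y]
    have hx5 : |x| ≤ 5 := by nlinarith [abs_nonneg y, abs_nonneg x]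
    have hx0 := abs_nonneg x
    have hy0 := abs_nonneg y
    have hyy : |y| * |y| = 4 * k - 7 := by rw [abs_mul_abs_self, hy]
    generalize |x| = X at *
    generalize |y| = Y at *
    interval_cases Y <;> interval_cases X <;> omega

end Pool.Agent.Helper32.SQ
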