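import Pool.Agent.Helper32.SQ.Two

set_option autoImplicit false

namespace Pool.Agent.Helper32.SQ

open Finset Matrix

section
variable {V : Type*} [Fintype V] [DecidableEq V] {G : SimpleGraph V} [DecidableRel G.Adj]
  {A : Matrix V V ℝ} {n k l m : ℕ}

/-- the adjacency matrix of a strongly regular graph has at most three distinct eigenvalues -/
lemma spec_le (h : G.IsSRGWith n k l m) : (spectrum ℝ (G.adjMatrix ℝ)).ncard ≤ 3 := by
  set B : Matrix V V ℝ := G.adjMatrix ℝ with hB
  set p : ℝ := (l : ℝ) - m with hp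
  set c : ℝ := (k : ℝ) - m with hc
  have hH : B.IsHermitian := by
    have : (G.adjMatrix ℝ).IsSymm := SimpleGraph.isSymm_adjMatrix G
    simpa [Matrix.IsHermitian, hB] using this.eq
  set J : Matrix V V ℝ := Matrix.of fun _ _ => (1 : ℝ) with hJ
  have hBJ : B * J = (k : ℝ) • J := by
    ext i j
    rw [Matrix.mul_apply]
    simp only [hJ, Matrix.of_apply, mul_one, Matrix.smul_apply, smul_eq_mul, hB,
      SimpleGraph.adjMatrix_apply, Finset.sum_boole]
    have : (univ.filter (fun x => G.Adj i x)) = G.neighborFinset i := by ext; simp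
    rw [this, SimpleGraph.card_neighborFinset_eq_degree, h.regular i]
  have hBB : B * B = p • B + c • (1 : Matrix V V ℝ) + (m : ℝ) • J := by
    have e := h.matrix_eq (α := ℝ)
    rw [sq] at e
    ext i j
    have e' := congrFun (congrFun e i) j
    simp only [Matrix.add_apply, Matrix.smul_apply, SimpleGraph.adjMatrix_apply,
      SimpleGraph.compl_adj, Matrix.one_apply] at e'
    rw [hB, e']
    simp only [Matrix.add_apply, Matrix.smul_apply, hJ, Matrix.of_apply,
      smul_eq_mul, SimpleGraph.adjMatrix_apply, Matrix.one_apply, hp, hc]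
    by_cases e1 : i = j
    · subst e1
      simp
    · by_cases e2 : G.Adj i j
      · simp [e1, e2]
      · simp [e1, e2]
  have hcube : B * (B * B) = (p + k) • (B * B) + (c - p * k) • B - (c * k) • (1 : Matrix V V ℝ) := by
    have e1 : B * (B * B) = p • (B * B) + c • B + ((m : ℝ) * k) • J := by
      conv_lhs => rw [hBB]
      simp only [Matrix.mul_add, Matrix.mul_smul, hBJ, Matrix.mul_one, smul_smul]
    have e2 : (m : ℝ) • J = B * B - p • B - c • (1 : Matrix V V ℝ) := by
      rw [hBB]; abel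
    rw [e1, mul_comm (m : ℝ) k, ← smul_smul, e2]
    ext i j
    simp only [Matrix.add_apply, Matrix.sub_apply, Matrix.smul_apply, smul_eq_mul]
    ring
  have hsub : spectrum ℝ B ⊆ {(k : ℝ), (p + Real.sqrt (p ^ 2 + 4 * c)) / 2,
      (p - Real.sqrt (p ^ 2 + 4 * c)) / 2} := by
    intro x hx
    rw [hH.spectrum_real_eq_range_eigenvalues] at hx
    obtain ⟨i, rfl⟩ := hx
    set x := hH.eigenvalues i with hxd
    set v : V → ℝ := ⇑(hH.eigenvectorBasis i) with hv
    have hev : B *ᵥ v = x • v := hH.mulVec_eigenvectorBasis i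
    have hv0 : v ≠ 0 := by
      intro h0
      have := (hH.eigenvectorBasis).toBasis.ne_zero i
      apply this
      rw [OrthonormalBasis.coe_toBasis]
      ext a
      exact congrFun h0 a
    have e1 : (B * B) *ᵥ v = (x * x) • v := by
      rw [← Matrix.mulVec_mulVec, hev, Matrix.mulVec_smul, hev, smul_smul]
    have e2 : (B * (B * B)) *ᵥ v = (x * (x * x)) • v := by
      rw [← Matrix.mulVec_mulVec, e1, Matrix.mulVec_smul, hev, smul_smul]
      congr 1
      ring
    rw [hcube, Matrix.sub_mulVec, Matrix.add_mulVec, Matrix.smul_mulVec, Matrix.smul_mulVec,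
      Matrix.smul_mulVec, e1, hev, Matrix.one_mulVec, smul_smul, smul_smul] at e2
    obtain ⟨a, ha⟩ := Function.ne_iff.1 hv0
    have e3 := congrFun e2 a
    simp only [Pi.add_apply, Pi.sub_apply, Pi.smul_apply, smul_eq_mul] at e3
    have e4 : ((x - k) * (x ^ 2 - p * x - c)) * v a = 0 := by linarith
    rcases mul_eq_zero.1 e4 with e5 | e5
    · rcases mul_eq_zero.1 e5 with e6 | e6
      · left
        linarith
      · right
        have e7 : (2 * x - p) ^ 2 = p ^ 2 + 4 * c := by linarith
        have e8 : Real.sqrt (p ^ 2 + 4 * c) = |2 * x - p| := by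
          rw [← e7, Real.sqrt_sq_eq_abs]
        rw [e8]
        rcases abs_cases (2 * x - p) with h' | h'
        · left; rw [h'.1]; ring
        · right; rw [Set.mem_singleton_iff, h'.1]; ring
    · exact absurd e5 ha
  refine (Set.ncard_le_ncard hsub (by simp)).trans ?_
  refine (Set.ncard_insert_le _ _).trans ?_
  have := Set.ncard_insert_le ((p + Real.sqrt (p ^ 2 + 4 * c)) / 2)
    {(p - Real.sqrt (p ^ 2 + 4 * c)) / 2}
  rw [Set.ncard_singleton] at this
  omega

lemma q_eq (h : G.IsSRGWith n k l m) (hV : Nonempty V)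
    (hno : ∀ A ∈ S G, ∀ α β : ℝ, A * A ≠ α • A + β • (1 : Matrix V V ℝ)) : q G = 3 := by
  have hlow : ∀ A ∈ S G, 3 ≤ (spectrum ℝ A).ncard := by
    intro A hA
    by_contra hc
    obtain ⟨α, β, e⟩ := quad_of_spec A hA.1 (by omega) hV
    exact hno A hA α β e
  have hadj : G.adjMatrix ℝ ∈ S G := by
    refine ⟨SimpleGraph.isSymm_adjMatrix G, fun i j _ => ?_⟩
    rw [SimpleGraph.adjMatrix_apply]
    by_cases e : G.Adj i j <;> simp [e]
  have hup : q G ≤ (spectrum ℝ (G.adjMatrix ℝ)).ncard := Nat.sInf_le ⟨_, hadj, rfl⟩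
  refine le_antisymm (hup.trans (spec_le h)) ?_
  unfold q
  refine le_csInf ⟨_, _, hadj, rfl⟩ ?_
  rintro j ⟨A, hA, e⟩
  rw [e]
  exact hlow A hA

end

/-- two parallel triangles -/
lemma prism (h0 h1 h2 a b c a' b' c' : ℝ) (hh1 : h1 ≠ 0) (hh2 : h2 ≠ 0) (hc : c ≠ 0)
    (ha' : a' ≠ 0) (hb' : b' ≠ 0) (E1 : h0 * a' + a * h1 = 0) (E2 : h1 * b' + b * h2 = 0)
    (E3 : h0 * c' + c * h2 = 0) : (a * b * c) * (a' * b' * c') < 0 := by
  have h : h1 * h2 * (a * b * c * c' + c * c * a' * b') = 0 := by
    linear_combination (c * c' * b * h2) * E1 - (c * c' * h0 * a') * E2 + (h1 * c * a' * b') * E3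
  have hk : a * b * c * c' + c * c * a' * b' = 0 := by
    rcases mul_eq_zero.1 h with h | h
    · exact absurd h (mul_ne_zero hh1 hh2)
    · exact h
  have e : (a * b * c) * (a' * b' * c') = -(c * (a' * b')) ^ 2 := by
    linear_combination (a' * b') * hk
  rw [e]
  have : 0 < (c * (a' * b')) ^ 2 := by positivity
  linarith

section
variable {V : Type*} [Fintype V] [DecidableEq V] {G : SimpleGraph V} [DecidableRel G.Adj]
  {A : Matrix V V ℝ} {n k l m : ℕ}

/-- a strongly regular graph with `μ = 2` which contains the `3 × 3` grid allows no matrix with two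
distinct eigenvalues -/
lemma no_grid (h : G.IsSRGWith n k l 2) (f : Fin 3 × Fin 3 → V)
    (hf : Function.Injective f)
    (hadj : ∀ x y, G.Adj (f x) (f y) ↔ x ≠ y ∧ (x.1 = y.1 ∨ x.2 = y.2))
    {α β : ℝ} (hA : A ∈ S G) (hq : A * A = α • A + β • (1 : Matrix V V ℝ)) : False := by
  have quad : ∀ i i' j j' : Fin 3, i ≠ i' → j ≠ j' →
      A (f (i, j)) (f (i, j')) * A (f (i, j')) (f (i', j')) +
        A (f (i, j)) (f (i', j)) * A (f (i', j)) (f (i', j')) = 0 := by
    intro i i' j j' hi hj
    have hne : f (i, j) ≠ f (i', j') := fun e => hi (by have := hf e; simp at this; exact this.1)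
    have hna : ¬ G.Adj (f (i, j)) (f (i', j')) := by
      rw [hadj]
      simp [hi, hj]
    have hw : f (i, j') ≠ f (i', j) := fun e => hi (by have := hf e; simp at this; exact this.1)
    refine real_pair hA hq hne hna hw ?_
    symm
    refine Finset.eq_of_subset_of_card_le ?_ ?_
    · intro x hx
      rw [Finset.mem_insert, Finset.mem_singleton] at hx
      rw [Finset.mem_filter]
      refine ⟨Finset.mem_univ _, ?_⟩
      rcases hx with rfl | rfl
      · rw [hadj, hadj]
        simp [hi, hj]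
      · rw [hadj, hadj]
        simp [hi, hj]
    · rw [com_not h hne hna, Finset.card_pair hw]
  have nz : ∀ x y : Fin 3 × Fin 3, (x ≠ y ∧ (x.1 = y.1 ∨ x.2 = y.2)) → A (f x) (f y) ≠ 0 := by
    intro x y hxy
    have := (hadj x y).2 hxy
    exact (hA.2 _ _ this.ne).2 this
  have key : ∀ j j' : Fin 3, j ≠ j' →
      (A (f (0, j)) (f (1, j)) * A (f (1, j)) (f (2, j)) * A (f (0, j)) (f (2, j))) *
      (A (f (0, j')) (f (1, j')) * A (f (1, j')) (f (2, j')) * A (f (0, j')) (f (2, j'))) < 0 := by
    intro j j' hj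
    have E1 := quad 0 1 j j' (by decide) hj
    have E2 := quad 1 2 j j' (by decide) hj
    have E3 := quad 0 2 j j' (by decide) hj
    refine prism (A (f (0, j)) (f (0, j'))) (A (f (1, j)) (f (1, j'))) (A (f (2, j)) (f (2, j')))
      _ _ _ _ _ _ (nz _ _ ?_) (nz _ _ ?_) (nz _ _ ?_) (nz _ _ ?_) (nz _ _ ?_) E1 E2 E3 <;>
      simp [hj]
  have k1 := key 0 1 (by decide)
  have k2 := key 1 2 (by decide)
  have k3 := key 0 2 (by decide)
  have k4 := mul_pos_of_neg_of_neg k1 k2
  have k5 := mul_neg_of_pos_of_neg k4 k3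
  nlinarith [sq_nonneg ((A (f (0, 0)) (f (1, 0)) * A (f (1, 0)) (f (2, 0)) * A (f (0, 0)) (f (2, 0))) *
    (A (f (0, 1)) (f (1, 1)) * A (f (1, 1)) (f (2, 1)) * A (f (0, 1)) (f (2, 1))) *
    (A (f (0, 2)) (f (1, 2)) * A (f (1, 2)) (f (2, 2)) * A (f (0, 2)) (f (2, 2))))]

end

/-- the lattice graph (rook's graph) `L₂(m) = K_m □ K_m` -/
def L2 (m : ℕ) : SimpleGraph (Fin m × Fin m) where
  Adj x y := x ≠ y ∧ (x.1 = y.1 ∨ x.2 = y.2)
  symm := ⟨fun x y h => ⟨h.1.symm, h.2.imp Eq.symm Eq.symm⟩⟩
  loopless := ⟨fun x h => h.1 rfl⟩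

instance (m : ℕ) : DecidableRel (L2 m).Adj := fun x y =>
  inferInstanceAs (Decidable (x ≠ y ∧ (x.1 = y.1 ∨ x.2 = y.2)))

lemma L2_common (m : ℕ) (x y : Fin m × Fin m) :
    Fintype.card ((L2 m).commonNeighbors x y) =
      (univ.filter (fun w => (L2 m).Adj x w ∧ (L2 m).Adj w y)).card := (common_filter _ _ _).symm

/-- the lattice graph is strongly regular -/
lemma L2_srg (m : ℕ) : (L2 m).IsSRGWith (m * m) (2 * (m - 1)) (m - 2) 2 where
  card := by simp
  regular := by
    rintro ⟨a, b⟩
    rw [← SimpleGraph.card_neighborFinset_eq_degree]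
    have : (L2 m).neighborFinset (a, b) =
        ((univ.erase b).image fun y => ((a, y) : Fin m × Fin m)) ∪
          ((univ.erase a).image fun x => ((x, b) : Fin m × Fin m)) := by
      ext ⟨x, y⟩
      simp only [SimpleGraph.mem_neighborFinset, Finset.mem_union, Finset.mem_image,
        Finset.mem_erase, Finset.mem_univ, and_true, Prod.mk.injEq]
      constructor
      · rintro ⟨h1, h2 | h2⟩
        · left
          simp only at h2
          subst h2
          exact ⟨y, fun e => h1 (by rw [e]), rfl, rfl⟩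
        · right
          simp only at h2
          subst h2
          exact ⟨x, fun e => h1 (by rw [e]), rfl, rfl⟩
      · rintro (⟨z, hz, rfl, rfl⟩ | ⟨z, hz, rfl, rfl⟩)
        · exact ⟨fun e => hz (Prod.ext_iff.1 e).2.symm, Or.inl rfl⟩
        · exact ⟨fun e => hz (Prod.ext_iff.1 e).1.symm, Or.inr rfl⟩
    rw [this, Finset.card_union_of_disjoint, Finset.card_image_of_injective,
      Finset.card_image_of_injective]
    · simp
      omega
    · intro x y h; exact (Prod.ext_iff.1 h).1
    · intro x y h; exact (Prod.ext_iff.1 h).2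
    · rw [Finset.disjoint_left]
      rintro ⟨x, y⟩ h1 h2
      simp only [Finset.mem_image, Finset.mem_erase, Finset.mem_univ, and_true,
        Prod.mk.injEq] at h1 h2
      obtain ⟨z, hz, rfl, rfl⟩ := h1
      obtain ⟨w, hw, rfl, rfl⟩ := h2
      exact hz rfl
  of_adj := by
    rintro ⟨a, b⟩ ⟨c, d⟩ ⟨h1, h2⟩
    rw [L2_common]
    rcases h2 with h2 | h2
    · simp only at h2
      subst h2
      have hbd : b ≠ d := fun e => h1 (by rw [e])
      have : univ.filter (fun w => (L2 m).Adj (a, b) w ∧ (L2 m).Adj w (a, d)) =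
          ((univ.erase b).erase d).image fun y => ((a, y) : Fin m × Fin m) := by
        ext ⟨x, y⟩
        simp only [Finset.mem_filter, Finset.mem_univ, true_and, Finset.mem_image,
          Finset.mem_erase, and_true, Prod.mk.injEq]
        constructor
        · rintro ⟨⟨h3, h4⟩, h5, h6⟩
          simp only at h4 h6
          have hax : a = x := by
            rcases h4 with h4 | h4
            · exact h4
            · rcases h6 with h6 | h6
              · exact h6.symm
              · exact absurd (h4.trans h6) hbd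
          subst hax
          exact ⟨y, ⟨fun e => h5 (by rw [e]), fun e => h3 (by rw [e])⟩, rfl, rfl⟩
        · rintro ⟨z, ⟨hz1, hz2⟩, rfl, rfl⟩
          exact ⟨⟨fun e => hz2 (Prod.ext_iff.1 e).2.symm, Or.inl rfl⟩,
            fun e => hz1 (Prod.ext_iff.1 e).2, Or.inl rfl⟩
      rw [this, Finset.card_image_of_injective _ (fun x y h => (Prod.ext_iff.1 h).2),
        Finset.card_erase_of_mem (by simp [hbd.symm]), Finset.card_erase_of_mem (by simp)]
      simp
      omega
    · simp only at h2
      subst h2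
      have hbd : a ≠ c := fun e => h1 (by rw [e])
      have : univ.filter (fun w => (L2 m).Adj (a, b) w ∧ (L2 m).Adj w (c, b)) =
          ((univ.erase a).erase c).image fun y => ((y, b) : Fin m × Fin m) := by
        ext ⟨x, y⟩
        simp only [Finset.mem_filter, Finset.mem_univ, true_and, Finset.mem_image,
          Finset.mem_erase, and_true, Prod.mk.injEq]
        constructor
        · rintro ⟨⟨h3, h4⟩, h5, h6⟩
          simp only at h4 h6
          have hax : b = y := by
            rcases h4 with h4 | h4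
            · rcases h6 with h6 | h6
              · exact absurd (h4.trans h6) hbd
              · exact h6.symm
            · exact h4
          subst hax
          exact ⟨x, ⟨fun e => h5 (by rw [e]), fun e => h3 (by rw [e])⟩, rfl, rfl⟩
        · rintro ⟨z, ⟨hz1, hz2⟩, rfl, rfl⟩
          exact ⟨⟨fun e => hz2 (Prod.ext_iff.1 e).1.symm, Or.inr rfl⟩,
            fun e => hz1 (Prod.ext_iff.1 e).1, Or.inr rfl⟩
      rw [this, Finset.card_image_of_injective _ (fun x y h => (Prod.ext_iff.1 h).1),
        Finset.card_erase_of_mem (by simp [hbd.symm]), Finset.card_erase_of_mem (by simp)]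
      simp
      omega
  of_not_adj := by
    rintro ⟨a, b⟩ ⟨c, d⟩ hne hna
    rw [L2_common]
    have hac : a ≠ c := fun e => hna ⟨hne, Or.inl e⟩
    have hbd : b ≠ d := fun e => hna ⟨hne, Or.inr e⟩
    have : univ.filter (fun w => (L2 m).Adj (a, b) w ∧ (L2 m).Adj w (c, d)) =
        {(a, d), (c, b)} := by
      ext ⟨x, y⟩
      simp only [Finset.mem_filter, Finset.mem_univ, true_and, Finset.mem_insert,
        Finset.mem_singleton, Prod.mk.injEq]
      constructor
      · rintro ⟨⟨h3, h4⟩, h5, h6⟩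
        simp only at h4 h6
        rcases h4 with h4 | h4 <;> rcases h6 with h6 | h6
        · exact absurd (h4.trans h6) hac
        · exact Or.inl ⟨h4.symm, h6⟩
        · exact Or.inr ⟨h6, h4.symm⟩
        · exact absurd (h4.trans h6) hbd
      · rintro (⟨rfl, rfl⟩ | ⟨rfl, rfl⟩)
        · exact ⟨⟨fun e => hbd (Prod.ext_iff.1 e).2, Or.inl rfl⟩,
            fun e => hac (Prod.ext_iff.1 e).1, Or.inr rfl⟩
        · exact ⟨⟨fun e => hac (Prod.ext_iff.1 e).1, Or.inr rfl⟩,
            fun e => hbd (Prod.ext_iff.1 e).2, Or.inl rfl⟩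
    rw [this, Finset.card_pair (fun e => hac (Prod.ext_iff.1 e).1)]

/-- `q(K_m □ K_m) = 3` for all `m ≥ 3` -/
lemma q_L2 (m : ℕ) (hm : 3 ≤ m) : q (L2 m) = 3 := by
  refine q_eq (L2_srg m) ⟨(⟨0, by omega⟩, ⟨0, by omega⟩)⟩ fun A hA α β e => ?_
  refine no_grid (L2_srg m) (fun x => (Fin.castLE hm x.1, Fin.castLE hm x.2)) ?_ ?_ hA e
  · rintro ⟨a, b⟩ ⟨c, d⟩ h
    have h1 := Fin.castLE_injective hm (Prod.ext_iff.1 h).1
    have h2 := Fin.castLE_injective hm (Prod.ext_iff.1 h).2
    rw [Prod.mk.injEq]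
    exact ⟨h1, h2⟩
  · rintro ⟨a, b⟩ ⟨c, d⟩
    simp only [L2, ne_eq, Prod.mk.injEq, Fin.castLE_inj]

end Pool.Agent.Helper32.SQ
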