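import Pool.Agent.Helper32.SQ.One

set_option autoImplicit false

namespace Pool.Agent.Helper32.SQ

open Finset Matrix

variable {V : Type*} [Fintype V] [DecidableEq V] {G : SimpleGraph V} [DecidableRel G.Adj]
  {A : Matrix V V ℝ} {n k l m : ℕ}

lemma com_adj (h : G.IsSRGWith n k l m) {u v : V} (ha : G.Adj u v) :
    (univ.filter (fun w => G.Adj u w ∧ G.Adj w v)).card = l := by
  rw [common_filter, ← h.of_adj u v ha]

lemma com_not (h : G.IsSRGWith n k l m) {u v : V} (hne : u ≠ v) (ha : ¬ G.Adj u v) :
    (univ.filter (fun w => G.Adj u w ∧ G.Adj w v)).card = m := by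
  rw [common_filter, ← h.of_not_adj hne ha]

lemma deg_card (h : G.IsSRGWith n k l m) (u : V) :
    (univ.filter (fun w => G.Adj u w ∧ G.Adj w u)).card = k := by
  have : univ.filter (fun w => G.Adj u w ∧ G.Adj w u) = G.neighborFinset u := by
    ext w
    simp [G.adj_comm w u]
  rw [this]
  exact h.regular u

/-- `λ = 1`, `μ = 2`: the second signing -/
lemma second (h : G.IsSRGWith n k 1 2) {α β : ℝ} (hA : A ∈ S G)
    (hq : A * A = α • A + β • (1 : Matrix V V ℝ)) :
    ∃ M : Matrix V V ℤ, M * M = M + (k : ℤ) • (1 : Matrix V V ℤ) ∧ M.trace = 0 := by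
  set σ : Matrix V V ℤ := sg G A with hσ
  set M : Matrix V V ℤ := σ * σ - (k : ℤ) • (1 : Matrix V V ℤ) with hM
  have hs0 : ∀ {u v : V}, ¬ G.Adj u v → σ u v = 0 := fun h => sg_zero h
  have hs1 : ∀ {u v : V}, G.Adj u v → σ u v = 1 ∨ σ u v = -1 := fun h => sg_one h
  have hsq : ∀ {u v : V}, G.Adj u v → σ u v * σ u v = 1 := fun h => sg_sq h
  have hsy : ∀ u v : V, σ u v = σ v u := fun u v => sg_symm hA u v
  have hMd : ∀ u, M u u = 0 := by
    intro u
    have : (σ * σ) u u = k := by
      rw [mul_eq_sum G σ σ (u := u) (v := u) (fun w hw => by rw [hs0 hw, zero_mul])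
        (fun w hw => by rw [hs0 hw, mul_zero])]
      rw [Finset.sum_congr rfl (g := fun _ => (1 : ℤ)) (fun w hw => by
        rw [Finset.mem_filter] at hw
        rw [hsy w u]
        exact hsq hw.2.1)]
      rw [Finset.sum_const, deg_card h u]
      simp
    rw [hM, Matrix.sub_apply, this]
    simp
  have hM1 : ∀ {u v w : V}, G.Adj u v →
      univ.filter (fun w => G.Adj u w ∧ G.Adj w v) = {w} → M u v = σ u w * σ w v := by
    intro u v w ha hf
    rw [hM, Matrix.sub_apply, mul_eq_sum G σ σ (u := u) (v := v)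
      (fun w hw => by rw [hs0 hw, zero_mul]) (fun w hw => by rw [hs0 hw, mul_zero]), hf,
      Finset.sum_singleton]
    simp [ha.ne]
  have hM0 : ∀ {u v : V}, ¬ G.Adj u v → M u v = 0 := by
    intro u v hn
    by_cases e : u = v
    · subst e
      exact hMd u
    · obtain ⟨w1, w2, hw, hf⟩ := Finset.card_eq_two.1 (com_not h e hn)
      rw [hM, Matrix.sub_apply, mul_eq_sum G σ σ (u := u) (v := v)
        (fun w hw => by rw [hs0 hw, zero_mul]) (fun w hw => by rw [hs0 hw, mul_zero]), hf,
        Finset.sum_pair hw, sg_pair hA hq e hn hw hf]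
      simp [e]
  have uniq : ∀ {u v w : V}, G.Adj u v → G.Adj u w → G.Adj w v →
      univ.filter (fun x => G.Adj u x ∧ G.Adj x v) = {w} := by
    intro u v w h1 h2 h3
    obtain ⟨x, hx⟩ := Finset.card_eq_one.1 (com_adj h h1)
    have : w ∈ univ.filter (fun x => G.Adj u x ∧ G.Adj x v) := by simp [h2, h3]
    rw [hx, Finset.mem_singleton] at this
    rw [hx, this]
  have hMv : ∀ {u v : V}, G.Adj u v → M u v = 1 ∨ M u v = -1 := by
    intro u v ha
    obtain ⟨x, hx⟩ := Finset.card_eq_one.1 (com_adj h ha)
    have : x ∈ univ.filter (fun x => G.Adj u x ∧ G.Adj x v) := by rw [hx]; simp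
    simp only [Finset.mem_filter, Finset.mem_univ, true_and] at this
    rw [hM1 ha hx]
    rcases hs1 this.1 with e | e <;> rcases hs1 this.2 with f | f <;> rw [e, f] <;> simp
  have hcomm : σ * M = M * σ := by
    rw [hM]
    simp only [Matrix.mul_sub, Matrix.sub_mul, Matrix.mul_smul, Matrix.smul_mul, Matrix.mul_one,
      Matrix.one_mul, Matrix.mul_assoc]
  refine ⟨M, ?_, ?_⟩
  · have key : M * M = σ * σ := by
      ext u v
      rw [mul_eq_sum G M M (u := u) (v := v)
        (fun w hw => by rw [hM0 hw, zero_mul]) (fun w hw => by rw [hM0 hw, mul_zero]),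
        mul_eq_sum G σ σ (u := u) (v := v)
        (fun w hw => by rw [hs0 hw, zero_mul]) (fun w hw => by rw [hs0 hw, mul_zero])]
      by_cases e : u = v
      · subst e
        refine Finset.sum_congr rfl fun w hw => ?_
        simp only [Finset.mem_filter, Finset.mem_univ, true_and] at hw
        obtain ⟨x, hx⟩ := Finset.card_eq_one.1 (com_adj h hw.1)
        have hx' : x ∈ univ.filter (fun x => G.Adj u x ∧ G.Adj x w) := by rw [hx]; simp
        simp only [Finset.mem_filter, Finset.mem_univ, true_and] at hx'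
        rw [hM1 hw.1 hx, hM1 hw.2 (uniq hw.2 hx'.2.symm hx'.1.symm), hsy w u, hsq hw.1,
          hsy w x, hsy x u]
        have e1 := hsq hx'.1
        have e2 := hsq hx'.2
        calc σ u x * σ x w * (σ x w * σ u x) = (σ u x * σ u x) * (σ x w * σ x w) := by ring
          _ = 1 := by rw [e1, e2]; ring
      · by_cases ha : G.Adj u v
        · obtain ⟨x, hx⟩ := Finset.card_eq_one.1 (com_adj h ha)
          have hx' : x ∈ univ.filter (fun x => G.Adj u x ∧ G.Adj x v) := by rw [hx]; simp
          simp only [Finset.mem_filter, Finset.mem_univ, true_and] at hx'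
          rw [hx, Finset.sum_singleton, Finset.sum_singleton,
            hM1 hx'.1 (uniq hx'.1 ha hx'.2.symm), hM1 hx'.2 (uniq hx'.2 hx'.1.symm ha),
            hsy v x, hsy x u]
          have e1 := hsq ha
          calc σ u v * σ x v * (σ u x * σ u v) = (σ u v * σ u v) * (σ u x * σ x v) := by ring
            _ = σ u x * σ x v := by rw [e1]; ring
        · obtain ⟨w1, w2, hw, hf⟩ := Finset.card_eq_two.1 (com_not h e ha)
          have hm1 : w1 ∈ univ.filter (fun w => G.Adj u w ∧ G.Adj w v) := by rw [hf]; simp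
          have hm2 : w2 ∈ univ.filter (fun w => G.Adj u w ∧ G.Adj w v) := by rw [hf]; simp
          simp only [Finset.mem_filter, Finset.mem_univ, true_and] at hm1 hm2
          have c1 := congrFun (congrFun hcomm u) v
          rw [mul_eq_sum G σ M (u := u) (v := v)
            (fun w hw => by rw [hs0 hw, zero_mul]) (fun w hw => by rw [hM0 hw, mul_zero]),
            mul_eq_sum G M σ (u := u) (v := v)
            (fun w hw => by rw [hM0 hw, zero_mul]) (fun w hw => by rw [hs0 hw, mul_zero]), hf,
            Finset.sum_pair hw, Finset.sum_pair hw] at c1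
          have c0 := sg_pair hA hq e ha hw hf
          rw [hf, Finset.sum_pair hw, Finset.sum_pair hw]
          have := signs_help _ _ _ _ _ _ _ _ (hs1 hm1.1) (hs1 hm1.2) (hs1 hm2.1) (hs1 hm2.2)
            (hMv hm1.1) (hMv hm1.2) (hMv hm2.1) (hMv hm2.2) c0 c1
          rw [this]
          exact c0.symm
    rw [key, hM]
    abel
  · rw [Matrix.trace]
    exact Finset.sum_eq_zero fun u _ => hMd u

/-- a strongly regular graph with `λ = 1`, `μ = 2` which is not complete allows no matrix with two
distinct eigenvalues -/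
lemma no_two (h : G.IsSRGWith n k 1 2) (hne : G ≠ ⊤) {α β : ℝ} (hA : A ∈ S G)
    (hq : A * A = α • A + β • (1 : Matrix V V ℝ)) : False := by
  obtain ⟨M, hM, htr⟩ := second h hA hq
  -- the parameters
  obtain ⟨u0, v0, huv, hn0⟩ : ∃ u v : V, u ≠ v ∧ ¬ G.Adj u v := by
    by_contra hc
    push Not at hc
    exact hne (by ext a b; simp only [SimpleGraph.top_adj]; exact ⟨fun h => h.ne, hc a b⟩)
  have hnpos : 0 < n := by
    rw [← h.card]
    exact Fintype.card_pos_iff.2 ⟨u0⟩
  have hkn : k + 2 ≤ n := by
    rw [← h.card, ← h.regular u0, ← SimpleGraph.card_neighborFinset_eq_degree]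
    have : (insert u0 (insert v0 (G.neighborFinset u0))).card ≤ Fintype.card V :=
      Finset.card_le_univ _
    rwa [Finset.card_insert_of_notMem (by simp [huv]),
      Finset.card_insert_of_notMem (by simpa using hn0)] at this
  have hpar := SimpleGraph.IsSRGWith.param_eq G h hnpos
  have hk3 : 3 ≤ k := by
    by_contra hc
    have : k ≤ 2 := by omega
    have h0 : k * (k - 1 - 1) = 0 := by
      interval_cases k <;> simp
    rw [h0] at hpar
    omega
  have hn2 : 2 * n = k * k + 2 := by
    obtain ⟨j, rfl⟩ : ∃ j, k = j + 2 := ⟨k - 2, by omega⟩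
    obtain ⟨i, rfl⟩ : ∃ i, n = i + (j + 2 + 1) := ⟨n - (j + 2 + 1), by omega⟩
    have e1 : j + 2 - 1 - 1 = j := by omega
    have e2 : i + (j + 2 + 1) - (j + 2) - 1 = i := by omega
    rw [e1, e2] at hpar
    nlinarith
  -- first trace
  have hcard : (Fintype.card V : ℝ) = n := by exact_mod_cast h.card
  obtain ⟨z1, hz1⟩ : ∃ z : ℤ, -(n : ℝ) = Real.sqrt (4 * k + 1) * z := by
    set MR : Matrix V V ℝ := M.map (Int.cast) with hMR
    have hMM : MR * MR = MR + (k : ℝ) • (1 : Matrix V V ℝ) := by
      have := congrArg (fun X : Matrix V V ℤ => X.map (Int.cast : ℤ → ℝ)) hM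
      ext i j
      have := congrFun (congrFun this i) j
      simp only [Matrix.map_apply, Matrix.mul_apply, Matrix.add_apply, Matrix.smul_apply] at this
      simp only [hMR, Matrix.mul_apply, Matrix.map_apply, Matrix.add_apply, Matrix.smul_apply]
      rw [← Int.cast_natCast (R := ℝ) k]
      push_cast at this ⊢
      rw [this]
      simp only [Matrix.one_apply]
      split_ifs <;> simp
    have hc : (0 : ℝ) < Real.sqrt (4 * k + 1) := Real.sqrt_pos.2 (by positivity)
    have hc2 : Real.sqrt (4 * k + 1) * Real.sqrt (4 * k + 1) = 4 * (k : ℝ) + 1 :=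
      Real.mul_self_sqrt (by positivity)
    obtain ⟨z, hz⟩ := trace_int ((2 : ℝ) • MR - 1) 1 (Real.sqrt (4 * k + 1)) hc (by simp) (by simp)
      (by simp) (by
        rw [hc2]
        simp only [Matrix.mul_sub, Matrix.sub_mul, Matrix.mul_smul, Matrix.smul_mul, hMM,
          Matrix.mul_one, Matrix.one_mul]
        ext i j
        simp only [Matrix.sub_apply, Matrix.smul_apply, Matrix.add_apply, smul_eq_mul]
        ring)
    refine ⟨z, ?_⟩
    rw [← hz, Matrix.trace_sub, Matrix.trace_smul, Matrix.trace_one, hcard]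
    have : MR.trace = 0 := by
      rw [Matrix.trace] at htr ⊢
      simp only [hMR, Matrix.diag_apply, Matrix.map_apply] at htr ⊢
      exact_mod_cast htr
    rw [this]
    simp
  -- second trace
  obtain ⟨z2, hz2⟩ : ∃ z : ℤ, (n : ℝ) - (2 * k + 1) = Real.sqrt (4 * k - 7) * z := by
    have hk3' : (3 : ℝ) ≤ k := by exact_mod_cast hk3
    have hn0 : (0 : ℝ) < n := by exact_mod_cast hnpos
    have hc : (0 : ℝ) < Real.sqrt (4 * k - 7) := Real.sqrt_pos.2 (by linarith)
    have hc2 : Real.sqrt (4 * k - 7) * Real.sqrt (4 * k - 7) = 4 * (k : ℝ) - 7 :=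
      Real.mul_self_sqrt (by linarith)
    set J : Matrix V V ℝ := Matrix.of fun _ _ => (1 : ℝ) with hJ
    set B : Matrix V V ℝ := G.adjMatrix ℝ with hB
    have hJJ : J * J = (n : ℝ) • J := by
      ext i j
      simp [hJ, Matrix.mul_apply, hcard]
    have hBJ : B * J = (k : ℝ) • J := by
      ext i j
      rw [Matrix.mul_apply]
      simp only [hJ, Matrix.of_apply, mul_one, Matrix.smul_apply, smul_eq_mul, hB,
        SimpleGraph.adjMatrix_apply, Finset.sum_boole]
      have : (univ.filter (fun x => G.Adj i x)) = G.neighborFinset i := by ext; simp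
      rw [this, SimpleGraph.card_neighborFinset_eq_degree, h.regular i]
    have hJB : J * B = (k : ℝ) • J := by
      ext i j
      rw [Matrix.mul_apply]
      simp only [hJ, Matrix.of_apply, one_mul, Matrix.smul_apply, smul_eq_mul, hB,
        SimpleGraph.adjMatrix_apply, Finset.sum_boole, mul_one]
      have : (univ.filter (fun x => G.Adj x j)) = G.neighborFinset j := by
        ext
        simp [G.adj_comm]
      rw [this, SimpleGraph.card_neighborFinset_eq_degree, h.regular j]
    have hBB : B * B = ((k : ℝ) - 2) • (1 : Matrix V V ℝ) - B + (2 : ℝ) • J := by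
      have e := h.matrix_eq (α := ℝ)
      rw [sq] at e
      ext i j
      have e' := congrFun (congrFun e i) j
      simp only [Matrix.add_apply, Matrix.smul_apply, SimpleGraph.adjMatrix_apply,
        SimpleGraph.compl_adj, Matrix.one_apply] at e'
      rw [hB, e']
      simp only [Matrix.add_apply, Matrix.sub_apply, Matrix.smul_apply, hJ, Matrix.of_apply,
        smul_eq_mul, SimpleGraph.adjMatrix_apply, Matrix.one_apply]
      by_cases e1 : i = j
      · subst e1
        simp
      · by_cases e2 : G.Adj i j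
        · simp [e1, e2]
          try norm_num
        · simp [e1, e2]
    set t : ℝ := (2 * k + 1) / n with ht
    have htn : t * n = 2 * k + 1 := by rw [ht]; field_simp
    have h8 : 8 - t * (2 * k + 1) = -((4 * k - 7) * (1 / n)) := by
      have hn2' : 2 * (n : ℝ) = k * k + 2 := by exact_mod_cast hn2
      rw [ht]
      field_simp
      nlinarith
    obtain ⟨z, hz⟩ := trace_int ((2 : ℝ) • B + 1 - t • J) (1 - (1 / (n : ℝ)) • J)
      (Real.sqrt (4 * k - 7)) hc (by
        simp only [Matrix.mul_sub, Matrix.sub_mul, Matrix.mul_smul, Matrix.smul_mul, hJJ,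
          Matrix.mul_one, Matrix.one_mul, smul_smul]
        ext i j
        simp only [Matrix.sub_apply, Matrix.smul_apply, smul_eq_mul]
        field_simp
        ring) (by
        simp only [Matrix.mul_sub, Matrix.sub_mul, Matrix.add_mul, Matrix.mul_smul,
          Matrix.smul_mul, hJJ, hBJ, Matrix.mul_one, Matrix.one_mul, smul_smul]
        ext i j
        simp only [Matrix.sub_apply, Matrix.add_apply, Matrix.smul_apply, smul_eq_mul, hJ,
          Matrix.of_apply]
        field_simp
        linarith) (by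
        simp only [Matrix.mul_sub, Matrix.sub_mul, Matrix.mul_add, Matrix.mul_smul,
          Matrix.smul_mul, hJJ, hJB, Matrix.mul_one, Matrix.one_mul, smul_smul]
        ext i j
        simp only [Matrix.sub_apply, Matrix.add_apply, Matrix.smul_apply, smul_eq_mul, hJ,
          Matrix.of_apply]
        field_simp
        linarith) (by
        rw [hc2]
        simp only [Matrix.mul_sub, Matrix.sub_mul, Matrix.mul_add, Matrix.add_mul, Matrix.mul_smul,
          Matrix.smul_mul, hJJ, hJB, hBJ, hBB, Matrix.mul_one, Matrix.one_mul, smul_smul, smul_add,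
          smul_sub]
        ext i j
        simp only [Matrix.sub_apply, Matrix.add_apply, Matrix.smul_apply, smul_eq_mul, hJ,
          Matrix.of_apply]
        linear_combination h8 + t * htn)
    refine ⟨z, ?_⟩
    rw [← hz, Matrix.trace_sub, Matrix.trace_add, Matrix.trace_smul, Matrix.trace_smul,
      Matrix.trace_one, hcard, hB, SimpleGraph.trace_adjMatrix]
    have : J.trace = n := by
      rw [Matrix.trace]
      simp [hJ, hcard]
    rw [this]
    simp only [smul_eq_mul, mul_zero, zero_add]
    rw [htn]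
  have f1 : (n : ℤ) * n = (4 * k + 1) * (z1 * z1) := by
    have hc2 : Real.sqrt (4 * k + 1) * Real.sqrt (4 * k + 1) = 4 * (k : ℝ) + 1 :=
      Real.mul_self_sqrt (by positivity)
    have : (n : ℝ) * n = (4 * k + 1) * (z1 * z1) := by
      calc (n : ℝ) * n = (-(n : ℝ)) * (-(n : ℝ)) := by ring
        _ = (Real.sqrt (4 * k + 1) * Real.sqrt (4 * k + 1)) * (z1 * z1) := by rw [hz1]; ring
        _ = _ := by rw [hc2]
    exact_mod_cast this
  have f2 : ((n : ℤ) - (2 * k + 1)) * (n - (2 * k + 1)) = (4 * k - 7) * (z2 * z2) := by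
    have hk3' : (3 : ℝ) ≤ k := by exact_mod_cast hk3
    have hc2 : Real.sqrt (4 * k - 7) * Real.sqrt (4 * k - 7) = 4 * (k : ℝ) - 7 :=
      Real.mul_self_sqrt (by linarith)
    have : ((n : ℝ) - (2 * k + 1)) * (n - (2 * k + 1)) = (4 * k - 7) * (z2 * z2) := by
      calc ((n : ℝ) - (2 * k + 1)) * (n - (2 * k + 1)) =
            (Real.sqrt (4 * k - 7) * Real.sqrt (4 * k - 7)) * (z2 * z2) := by rw [hz2]; ring
        _ = _ := by rw [hc2]
    exact_mod_cast this
  exact arith n k z1 z2 hk3 hn2 f1 f2

end Pool.Agent.Helper32.SQ
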